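import Pool.Agent.Run7.h315.CD.Lift

/-!
# Nowhere-zero 5-flows of graphs whose edges are covered by few small connected sets
-/

set_option autoImplicit false
set_option linter.unusedSectionVars false

namespace Run7.h315.CD

open Finset Pool.Agent.TH676.Z Pool.Agent.Y335.FL Pool.Agent.Y358.IN Pool.Agent.R129.Ball

section cls

variable {V E : Type} [Fintype V] [DecidableEq V] [Fintype E] [DecidableEq E]

open Classical in
/-- the total weight of the connected sets which contain an end of an edge is at least one -/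
def ClV {ι : Type} [Fintype ι] (m : ι → ℕ) (w : ι → ℝ) (src dst : E → V) : Prop :=
  ∃ C : ι → Finset V, (∀ i, Cn src dst (C i) ∧ (C i).card ≤ m i) ∧
    ∀ e, src e ≠ dst e → 1 ≤ ∑ i, if src e ∈ C i ∨ dst e ∈ C i then w i else 0

theorem ccV {ι : Type} [Fintype ι] (m : ι → ℕ) (w : ι → ℝ) (hw : ∀ i, 0 ≤ w i) :
    CC (V := V) (E := E) (ClV m w) := by
  classical
  intro src dst e h hne
  obtain ⟨C, hC, hc⟩ := h
  refine ⟨fun i => (C i).image (ctr (src e) (dst e)),
    fun i => ⟨(hC i).1.im, card_image_le.trans (hC i).2⟩, ?_⟩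
  intro f hf
  have hne' : src f ≠ dst f := fun h => hf (by simp only [Function.comp]; rw [h])
  refine (hc f hne').trans (sum_le_sum fun i _ => ?_)
  by_cases h1 : src f ∈ C i ∨ dst f ∈ C i
  · have h5 : ctr (src e) (dst e) (src f) ∈ (C i).image (ctr (src e) (dst e)) ∨
        ctr (src e) (dst e) (dst f) ∈ (C i).image (ctr (src e) (dst e)) :=
      h1.imp (mem_image_of_mem _) (mem_image_of_mem _)
    rw [if_pos h1]
    simp only [Function.comp]
    rw [if_pos h5]
  · rw [if_neg h1]
    split_ifs
    · exact hw i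
    · exact le_rfl

open Classical in
/-- the pairs `(x, y)` of neighbours with an end in `C` -/
noncomputable def Pr (G : SimpleGraph V) (C : Finset V) : Finset (V × V) :=
  univ.filter (fun p => G.Adj p.1 p.2 ∧ (p.1 ∈ C ∨ p.2 ∈ C))

open Classical in
/-- the number of the ordered pairs of neighbours which meet a set -/
theorem Cn.pairs {src dst : E → V} {G : SimpleGraph V} (hG : ∀ a b, G.Adj a b ↔ Adj src dst a b)
    {C : Finset V} (h : Cn src dst C) :
    (Pr G C).card + 2 * C.card ≤ 2 * ∑ x ∈ C, (nb G x).card + 2 := by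
  have hstar : ∀ x, (Pr G {x}).card ≤ 2 * (nb G x).card := by
    intro x
    have h1 : Pr G {x} ⊆ (nb G x).image (fun y => (x, y)) ∪ (nb G x).image (fun y => (y, x)) := by
      intro p hp
      unfold Pr at hp
      obtain ⟨_, h1, h2⟩ := mem_filter.1 hp
      rw [mem_singleton, mem_singleton] at h2
      rcases h2 with h2 | h2
      · exact mem_union_left _ (mem_image.2 ⟨p.2, mem_nb.2 (by rw [← h2]; exact h1),
          by rw [← h2]⟩)
      · exact mem_union_right _ (mem_image.2 ⟨p.1, mem_nb.2 (by rw [← h2]; exact h1.symm),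
          by rw [← h2]⟩)
    have h2 := (card_le_card h1).trans (card_union_le _ _)
    have h3 : ((nb G x).image (fun y => (x, y))).card ≤ (nb G x).card := card_image_le
    have h4 : ((nb G x).image (fun y => (y, x))).card ≤ (nb G x).card := card_image_le
    omega
  induction h with
  | one x =>
    rw [sum_singleton, card_singleton]
    have := hstar x
    omega
  | @add C x y hC hy hadj ih =>
    by_cases hx : x ∈ C
    · rw [insert_eq_of_mem hx]
      exact ih
    · rw [card_insert_of_notMem hx, sum_insert hx]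
      have hxy : G.Adj x y := (hG _ _).2 (GiAux.adj_symm hadj)
      have h1 : Pr G (insert x C) ⊆ Pr G C ∪ (((Pr G {x}).erase (x, y)).erase (y, x)) := by
        intro p hp
        unfold Pr at hp
        obtain ⟨_, h1, h2⟩ := mem_filter.1 hp
        by_cases h3 : p.1 ∈ C ∨ p.2 ∈ C
        · exact mem_union_left _ (by unfold Pr; exact mem_filter.2 ⟨mem_univ _, h1, h3⟩)
        · refine mem_union_right _ (mem_erase.2 ⟨?_, mem_erase.2 ⟨?_, ?_⟩⟩)
          · intro h4
            exact h3 (Or.inl (by rw [h4]; exact hy))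
          · intro h4
            exact h3 (Or.inr (by rw [h4]; exact hy))
          · unfold Pr
            refine mem_filter.2 ⟨mem_univ _, h1, ?_⟩
            rw [mem_singleton, mem_singleton]
            rcases h2 with h2 | h2
            · rcases mem_insert.1 h2 with h2 | h2
              · exact Or.inl h2
              · exact absurd (Or.inl h2) h3
            · rcases mem_insert.1 h2 with h2 | h2
              · exact Or.inr h2
              · exact absurd (Or.inr h2) h3
      have h2 := (card_le_card h1).trans (card_union_le _ _)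
      have m1 : (x, y) ∈ Pr G {x} := by
        unfold Pr
        exact mem_filter.2 ⟨mem_univ _, hxy, Or.inl (mem_singleton_self _)⟩
      have m2 : (y, x) ∈ (Pr G {x}).erase (x, y) := by
        refine mem_erase.2 ⟨fun h4 => hxy.ne (Prod.mk.inj h4).2, ?_⟩
        unfold Pr
        exact mem_filter.2 ⟨mem_univ _, hxy.symm, Or.inr (mem_singleton_self _)⟩
      rw [card_erase_of_mem m2, card_erase_of_mem m1] at h2
      have h3 := hstar x
      have h4 : 1 ≤ ((Pr G {x}).erase (x, y)).card := card_pos.2 ⟨_, m2⟩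
      rw [card_erase_of_mem m1] at h4
      omega

end cls

/-- **Main step.** -/
theorem flow_of_ClV (hc : St_contract) {ι : Type} [Fintype ι] (m : ι → ℕ) (w : ι → ℝ)
    (hw : ∀ i, 0 ≤ w i) (h189 : ∑ i, w i * (2 * m i + 1) < 189)
    (h93 : ∑ i, w i * max (m i : ℝ) 2 ≤ 93)
    {V E : Type} [Fintype V] [DecidableEq V] [Fintype E] [DecidableEq E] (src dst : E → V)
    (hcl : ClV m w src dst) (hbr : Br src dst ∅ ∅) : FlowOn src dst ∅ ∅ := by
  classical
  by_contra hn
  obtain ⟨s, d, ⟨C, hC, hcov⟩, hM⟩ := exists_minC (ccV m w hw) src dst hcl hbr hn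
  have h3 := threeC hc hM
  have hgi := girthC hc hM
  by_cases hl : ∀ e, s e = d e
  · exact hM.nf (flow_of_loops hl)
  push Not at hl
  obtain ⟨e, he⟩ := hl
  let G : SimpleGraph V :=
    { Adj := Adj s d
      symm := ⟨fun a b h => GiAux.adj_symm h⟩
      loopless := ⟨fun a h => h.1 rfl⟩ }
  have hG : ∀ a b, G.Adj a b ↔ Adj s d a b := fun a b => Iff.rfl
  have h12 : ∀ (w : V) (c : G.Walk w w), c.IsCycle → 12 ≤ c.length :=
    fun w c hc => Ord.cycle_len hgi G hG c hc
  have hxy : G.Adj (s e) (d e) := ⟨he, e, Or.inl ⟨rfl, rfl⟩⟩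
  have hn126 : 126 ≤ (Ni G).card := by
    have h1 := moore V (Adj s d) (fun a b h => GiAux.adj_symm h) (fun a h => h.1 rfl) hgi h3
      ⟨s e, d e, hxy⟩
    refine h1.trans (card_le_card ?_)
    intro v hv
    rw [mem_filter] at hv
    unfold Ni
    exact mem_filter.2 ⟨mem_univ _, hv.2⟩
  have hnR : (126 : ℤ) ≤ (Ni G).card := by exact_mod_cast hn126
  have hcardR : ∀ i, ((C i).card : ℤ) ≤ m i := fun i => by exact_mod_cast (hC i).2
  -- the edges which meet `C i`; `P` is the number of ordered pairs
  have hball : ∀ i, 31 * ((Pr G (C i)).card : ℤ) ≤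
      (max (m i : ℤ) 2) * (((Ni G).card : ℤ) - 126) + 62 * (2 * (m i : ℤ) + 1) := by
    intro i
    have hcnt := (hC i).1.pairs hG
    have hmax : ((C i).card : ℤ) ≤ max (m i : ℤ) 2 := (hcardR i).trans (le_max_left _ _)
    have hmax2 : (2 : ℤ) ≤ max (m i : ℤ) 2 := le_max_right _ _
    have hmul2 : 2 * (((Ni G).card : ℤ) - 126) ≤ (max (m i : ℤ) 2) * (((Ni G).card : ℤ) - 126) :=
      mul_le_mul_of_nonneg_right hmax2 (by linarith)
    have hm0 : (0 : ℤ) ≤ (m i : ℤ) := Int.natCast_nonneg _
    rcases (hC i).1.nbr with ⟨x, hx⟩ | h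
    · have hm1 : (1 : ℤ) ≤ m i := by
        have := hcardR i
        rw [hx, card_singleton] at this
        exact_mod_cast this
      by_cases hi : ∃ y, G.Adj x y
      · obtain ⟨y, hy⟩ := hi
        have h1 := ball h12 h3 hy (r := 1) (by omega)
        have h2 : (nb G x).card + 1 ≤ ((range 2).biUnion fun j => Lv G j x).card := by
          have h4 : (insert x (nb G x)) ⊆ (range 2).biUnion fun j => Lv G j x := by
            intro z hz
            rcases mem_insert.1 hz with h | h
            · rw [h]
              refine mem_biUnion.2 ⟨0, by simp, ?_⟩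
              rw [Lv_zero]
              exact mem_singleton_self _
            · have h5 := mem_nb.1 h
              exact mem_biUnion.2 ⟨1, by simp, mem_Lv.2 ⟨SimpleGraph.Walk.cons h5
                SimpleGraph.Walk.nil, Ord.edge_path h5, by simp⟩⟩
          have h6 := card_le_card h4
          rw [card_insert_of_notMem (fun h => (mem_nb.1 h).ne rfl)] at h6
          exact h6
        rw [hx, sum_singleton, card_singleton] at hcnt
        norm_num at h1
        have h8 : 31 * ((Pr G {x}).card : ℤ) + 2 * 33 ≤ 2 * (Ni G).card := by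
          have : 31 * (Pr G {x}).card + 2 * 33 ≤ 2 * (Ni G).card := by omega
          exact_mod_cast this
        rw [hx]
        linarith
      · have h1 : Pr G (C i) = ∅ := by
          rw [eq_empty_iff_forall_notMem]
          intro p hp
          unfold Pr at hp
          obtain ⟨_, h1, h2⟩ := mem_filter.1 hp
          rw [hx, mem_singleton, mem_singleton] at h2
          rcases h2 with h2 | h2
          · exact hi ⟨p.2, by rw [← h2]; exact h1⟩
          · exact hi ⟨p.1, by rw [← h2]; exact h1.symm⟩
        rw [h1, card_empty, Nat.cast_zero, mul_zero]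
        linarith
    · have h1 := sum_le h12 h3 (C := C i) (fun x hx => by
        obtain ⟨y, hy, h'⟩ := h x hx
        exact ⟨y, hy, h'⟩)
      rw [sum_sub_distrib, sum_const, nsmul_eq_mul, mul_one] at h1
      have h2 : ((Pr G (C i)).card : ℤ) + 2 * (C i).card ≤
          2 * ∑ x ∈ C i, ((nb G x).card : ℤ) + 2 := by
        have h5 : ((∑ x ∈ C i, (nb G x).card : ℕ) : ℤ) = ∑ x ∈ C i, ((nb G x).card : ℤ) := by
          push_cast
          rfl
        rw [← h5]
        exact_mod_cast hcnt
      have hmul : ((C i).card : ℤ) * (((Ni G).card : ℤ) - 126) ≤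
          (max (m i : ℤ) 2) * (((Ni G).card : ℤ) - 126) :=
        mul_le_mul_of_nonneg_right hmax (by linarith)
      have h4 := hcardR i
      nlinarith
  have hballR : ∀ i, 31 * ((Pr G (C i)).card : ℝ) ≤
      (max (m i : ℝ) 2) * (((Ni G).card : ℝ) - 126) + 62 * (2 * (m i : ℝ) + 1) := by
    intro i
    have := hball i
    have h5 : ((max (m i : ℤ) 2 : ℤ) : ℝ) = max (m i : ℝ) 2 := by push_cast; rfl
    rw [← h5]
    exact_mod_cast this
  -- the number of ordered pairs of neighbours
  set P : Finset (V × V) := univ.filter (fun p => G.Adj p.1 p.2) with hP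
  have hPlow : 3 * ((Ni G).card : ℝ) ≤ (P.card : ℝ) := by
    have h1 : (Ni G).card * 3 ≤ P.card := by
      have hmap : ∀ p ∈ P, p.1 ∈ Ni G := by
        intro p hp
        unfold Ni
        exact mem_filter.2 ⟨mem_univ _, p.2, (mem_filter.1 hp).2⟩
      rw [card_eq_sum_card_fiberwise hmap, ← smul_eq_mul]
      refine card_nsmul_le_sum _ _ _ fun x hx => ?_
      unfold Ni at hx
      obtain ⟨y, hy⟩ := (mem_filter.1 hx).2
      refine (three_nb (G := G) (fun x y h => h3 x y h) hy).trans ?_
      rw [← card_image_of_injective (nb G x) (f := fun z => (x, z))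
        (fun a b h => (Prod.mk.inj h).2)]
      refine card_le_card ?_
      intro p hp
      obtain ⟨z, hz, rfl⟩ := mem_image.1 hp
      exact mem_filter.2 ⟨mem_filter.2 ⟨mem_univ _, mem_nb.1 hz⟩, rfl⟩
    have h2 : (((Ni G).card * 3 : ℕ) : ℝ) ≤ (P.card : ℝ) := by exact_mod_cast h1
    push_cast at h2
    linarith
  have hsum : (P.card : ℝ) ≤ ∑ i, w i * (Pr G (C i)).card := by
    calc (P.card : ℝ) = ∑ p ∈ P, (1 : ℝ) := by simp
      _ ≤ ∑ p ∈ P, ∑ i, (if p.1 ∈ C i ∨ p.2 ∈ C i then w i else 0) := by
          refine sum_le_sum fun p hp => ?_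
          obtain ⟨hne, f, hf⟩ := (mem_filter.1 hp).2
          rcases hf with ⟨h1, h2⟩ | ⟨h1, h2⟩
          · have h4 := hcov f (by rw [h1, h2]; exact hne)
            rw [h1, h2] at h4
            exact h4
          · have h4 := hcov f (by rw [h1, h2]; exact hne.symm)
            rw [h1, h2] at h4
            refine h4.trans (le_of_eq (sum_congr rfl fun i _ => ?_))
            simp only [or_comm]
      _ = ∑ i, ∑ p ∈ P, (if p.1 ∈ C i ∨ p.2 ∈ C i then w i else 0) := sum_comm
      _ = ∑ i, w i * (Pr G (C i)).card := by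
          refine sum_congr rfl fun i _ => ?_
          rw [← sum_filter, sum_const, nsmul_eq_mul, mul_comm]
          congr 3
          unfold Pr
          rw [hP, filter_filter]
  have hS : 31 * (P.card : ℝ) ≤ (∑ i, w i * max (m i : ℝ) 2) * (((Ni G).card : ℝ) - 126) +
      62 * ∑ i, w i * (2 * (m i : ℝ) + 1) := by
    calc 31 * (P.card : ℝ) ≤ 31 * ∑ i, w i * (Pr G (C i)).card := by linarith
      _ = ∑ i, w i * (31 * ((Pr G (C i)).card : ℝ)) := by
          rw [mul_sum]
          exact sum_congr rfl fun i _ => by ring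
      _ ≤ ∑ i, w i * ((max (m i : ℝ) 2) * (((Ni G).card : ℝ) - 126) +
          62 * (2 * (m i : ℝ) + 1)) :=
          sum_le_sum fun i _ => mul_le_mul_of_nonneg_left (hballR i) (hw i)
      _ = _ := by
          rw [sum_mul, mul_sum, ← sum_add_distrib]
          exact sum_congr rfl fun i _ => by ring
  have hnR' : (126 : ℝ) ≤ (Ni G).card := by exact_mod_cast hn126
  have h9 : (∑ i, w i * max (m i : ℝ) 2) * (((Ni G).card : ℝ) - 126) ≤
      93 * (((Ni G).card : ℝ) - 126) := mul_le_mul_of_nonneg_right h93 (by linarith)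
  linarith

/-- covers of the contracted graph by connected sets -/
theorem flow_modV (hc : St_contract) (hQ : St_quot) {ι : Type} [Fintype ι] (m : ι → ℕ)
    (w : ι → ℝ) (hw : ∀ i, 0 ≤ w i) (h189 : ∑ i, w i * (2 * m i + 1) < 189)
    (h93 : ∑ i, w i * max (m i : ℝ) 2 ≤ 93) {V E : Type} [Fintype V] [DecidableEq V] [Fintype E]
    [DecidableEq E] {s d : E → V} {F : Finset E} {r : V → V}
    (hb : Br s d ∅ ∅) (hr : Contr5 s d F r) (h : ClV m w (r ∘ s) (r ∘ d)) : FlowOn s d ∅ F :=
  lift_contr hQ hr (flow_of_ClV hc m w hw h189 h93 _ _ h (br_map r hb))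

end Run7.h315.CD
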