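import Pool.Agent.R129.Ball.Cls

/-!
# Stars and connected sets in graphs of girth at least twelve and minimum degree three
-/

set_option autoImplicit false
set_option linter.unusedSectionVars false

namespace Run7.h315.CD

open Finset Pool.Agent.TH676.Z Pool.Agent.Y335.FL Pool.Agent.Y358.IN Pool.Agent.R129.Ball

variable {V : Type} [Fintype V] [DecidableEq V] {G : SimpleGraph V}

open Classical in
/-- the neighbours -/
noncomputable def nb (G : SimpleGraph V) (y : V) : Finset V := univ.filter (fun x => G.Adj y x)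

theorem mem_nb {x y : V} : x ∈ nb G y ↔ G.Adj y x := by
  classical
  unfold nb
  simp

theorem Lv_card (h12 : ∀ (w : V) (c : G.Walk w w), c.IsCycle → 12 ≤ c.length) (a : V) {k : ℕ}
    (hk : k ≤ 4) : (Lv G (k + 1) a).card = ∑ x ∈ nb G a, (Ord.Bs G k x a).card := by
  classical
  have h0 : Lv G (k + 1) a = (nb G a).biUnion fun y => Ord.Bs G k y a := by
    rw [Lv_succ]
    unfold nb
    congr
  rw [h0, card_biUnion]
  intro y hy z hz hne
  change Disjoint (Ord.Bs G k y a) (Ord.Bs G k z a)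
  rw [disjoint_left]
  intro v hv hv'
  have hy' := mem_nb.1 hy
  have hz' := mem_nb.1 hz
  obtain ⟨p, hp, hpl, hap⟩ := Ord.mem_Bs.1 hv
  obtain ⟨q, hq, hql, haq⟩ := Ord.mem_Bs.1 hv'
  have e := Ord.uniq h12 ((SimpleGraph.Walk.cons_isPath_iff hy' p).2 ⟨hp, hap⟩)
    ((SimpleGraph.Walk.cons_isPath_iff hz' q).2 ⟨hq, haq⟩) (by
      rw [SimpleGraph.Walk.length_cons, SimpleGraph.Walk.length_cons]
      omega)
  have e2 := congrArg SimpleGraph.Walk.snd e
  rw [SimpleGraph.Walk.snd_cons, SimpleGraph.Walk.snd_cons] at e2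
  exact hne e2

theorem Bs_one {x y : V} (h : G.Adj y x) : (nb G x).card ≤ (Ord.Bs G 1 x y).card + 1 := by
  classical
  have h1 : nb G x ⊆ insert y (Ord.Bs G 1 x y) := by
    intro v hv
    have hv' := mem_nb.1 hv
    by_cases hvy : v = y
    · rw [hvy]; exact mem_insert_self _ _
    · refine mem_insert_of_mem (Ord.mem_Bs.2 ⟨SimpleGraph.Walk.cons hv' SimpleGraph.Walk.nil,
        Ord.edge_path hv', by simp, ?_⟩)
      simp only [SimpleGraph.Walk.support_cons, SimpleGraph.Walk.support_nil, List.mem_cons,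
        List.not_mem_nil, or_false, not_or]
      exact ⟨h.ne, fun h2 => hvy h2.symm⟩
  exact (card_le_card h1).trans (card_insert_le _ _)

/-- the number of the vertices, from a vertex `y` and a set of its neighbours -/
theorem count (h12 : ∀ (w : V) (c : G.Walk w w), c.IsCycle → 12 ≤ c.length)
    (h3 : ∀ x y, G.Adj x y → ∃ a b c, G.Adj x a ∧ G.Adj x b ∧ G.Adj x c ∧ a ≠ b ∧ a ≠ c ∧ b ≠ c)
    {y : V} {S : Finset V} (hS : S ⊆ nb G y) {z : V} (hz : z ∈ S) :
    1 + ∑ x ∈ S, (1 + 15 * (Ord.Bs G 1 x y).card) + 31 * ((nb G y).card - S.card) +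
      16 * (Ord.Bs G 1 z y).card ≤ (Ni G).card := by
  classical
  have hyz : G.Adj y z := mem_nb.1 (hS hz)
  have ht := total h12 hyz
  simp only [sum_range_succ, sum_range_zero, zero_add] at ht
  have h0 : (Lv G 0 y).card = 1 := by rw [Lv_zero, card_singleton]
  have h1 : (Lv G 1 y).card = _ := Lv_card h12 y (k := 0) (by omega)
  have h2 : (Lv G 2 y).card = _ := Lv_card h12 y (k := 1) (by omega)
  have h3' : (Lv G 3 y).card = _ := Lv_card h12 y (k := 2) (by omega)
  have h4 : (Lv G 4 y).card = _ := Lv_card h12 y (k := 3) (by omega)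
  have h5 : (Lv G 5 y).card = _ := Lv_card h12 y (k := 4) (by omega)
  have h6 : (Ord.Bs G 5 z y).card ≤ (Lv G 6 y).card := card_le_card (Bs_sub hyz)
  have hsum : ∑ x ∈ nb G y, ((Ord.Bs G 0 x y).card + (Ord.Bs G 1 x y).card +
      (Ord.Bs G 2 x y).card + (Ord.Bs G 3 x y).card + (Ord.Bs G 4 x y).card) =
      (Lv G 1 y).card + (Lv G 2 y).card + (Lv G 3 y).card + (Lv G 4 y).card +
        (Lv G 5 y).card := by
    rw [h1, h2, h3', h4, h5]
    simp only [sum_add_distrib]
  have hsplit := sum_sdiff hS (f := fun x => ((Ord.Bs G 0 x y).card + (Ord.Bs G 1 x y).card +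
      (Ord.Bs G 2 x y).card + (Ord.Bs G 3 x y).card + (Ord.Bs G 4 x y).card))
  have hin : ∑ x ∈ S, (1 + 15 * (Ord.Bs G 1 x y).card) ≤
      ∑ x ∈ S, ((Ord.Bs G 0 x y).card + (Ord.Bs G 1 x y).card +
      (Ord.Bs G 2 x y).card + (Ord.Bs G 3 x y).card + (Ord.Bs G 4 x y).card) := by
    refine sum_le_sum fun x hx => ?_
    have hxy : G.Adj x y := (mem_nb.1 (hS hx)).symm
    have b0 : 1 ≤ (Ord.Bs G 0 x y).card := le_trans (by norm_num) (Ord.card_Bs h12 h3 hxy 0 (by omega))
    have s1 := Ord.step h12 h3 hxy (d := 1) (by omega)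
    have s2 := Ord.step h12 h3 hxy (d := 2) (by omega)
    have s3 := Ord.step h12 h3 hxy (d := 3) (by omega)
    norm_num at s1 s2 s3
    omega
  have hout : ((nb G y) \ S).card * 31 ≤
      ∑ x ∈ (nb G y) \ S, ((Ord.Bs G 0 x y).card + (Ord.Bs G 1 x y).card +
      (Ord.Bs G 2 x y).card + (Ord.Bs G 3 x y).card + (Ord.Bs G 4 x y).card) := by
    rw [← smul_eq_mul]
    refine card_nsmul_le_sum _ _ _ fun x hx => ?_
    have hxy : G.Adj x y := (mem_nb.1 (mem_sdiff.1 hx).1).symm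
    have b0 : 1 ≤ (Ord.Bs G 0 x y).card := le_trans (by norm_num) (Ord.card_Bs h12 h3 hxy 0 (by omega))
    have b1 := Ord.card_Bs h12 h3 hxy 1 (by omega)
    have b2 := Ord.card_Bs h12 h3 hxy 2 (by omega)
    have b3 := Ord.card_Bs h12 h3 hxy 3 (by omega)
    have b4 := Ord.card_Bs h12 h3 hxy 4 (by omega)
    norm_num at b1 b2 b3 b4
    omega
  rw [card_sdiff_of_subset hS] at hout
  have hz5 : 16 * (Ord.Bs G 1 z y).card ≤ (Ord.Bs G 5 z y).card := by
    have s1 := Ord.step h12 h3 hyz.symm (d := 1) (by omega)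
    have s2 := Ord.step h12 h3 hyz.symm (d := 2) (by omega)
    have s3 := Ord.step h12 h3 hyz.symm (d := 3) (by omega)
    have s4 := Ord.step h12 h3 hyz.symm (d := 4) (by omega)
    norm_num at s1 s2 s3 s4
    omega
  omega

theorem three_nb (h3 : ∀ x y, G.Adj x y → ∃ a b c, G.Adj x a ∧ G.Adj x b ∧ G.Adj x c ∧ a ≠ b ∧
    a ≠ c ∧ b ≠ c) {x y : V} (h : G.Adj x y) : 3 ≤ (nb G x).card := by
  classical
  obtain ⟨a, b, c, ha, hb, hc, hab, hac, hbc⟩ := h3 x y h
  have h1 : ({a, b, c} : Finset V) ⊆ nb G x := by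
    intro v hv
    simp only [mem_insert, mem_singleton] at hv
    rcases hv with rfl | rfl | rfl <;> rw [mem_nb] <;> assumption
  have h2 : ({a, b, c} : Finset V).card = 3 := card_eq_three.2 ⟨a, b, c, hab, hac, hbc, rfl⟩
  rw [← h2]
  exact card_le_card h1

theorem arith (j d A n : ℤ) (hj : 1 ≤ j) (hd : 3 ≤ d) (hA : 2 * j ≤ A)
    (h : j * (1 + j + 15 * A + 31 * (d - j)) + 16 * A ≤ j * n) :
    62 * ((d - 1) + A) ≤ (j + 1) * (n - 2) := by
  have k1 : 0 ≤ (j - 1) * (15 * j - 16) * (A - 2 * j) := by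
    rcases eq_or_lt_of_le hj with h1 | h1
    · rw [← h1]; norm_num
    · exact mul_nonneg (mul_nonneg (by linarith) (by linarith)) (by linarith)
  have k2 : 0 ≤ (j - 1) * j * (31 * (d - 3)) :=
    mul_nonneg (mul_nonneg (by linarith) (by linarith)) (by linarith)
  have k3 : (j + 1) * (j * (1 + j + 15 * A + 31 * (d - j)) + 16 * A) ≤ (j + 1) * (j * n) :=
    mul_le_mul_of_nonneg_left h (by linarith)
  have k4 : j * (62 * ((d - 1) + A)) ≤ j * ((j + 1) * (n - 2)) := by nlinarith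
  exact le_of_mul_le_mul_left k4 (by linarith)

/-- **The star inequality.** -/
theorem star (h12 : ∀ (w : V) (c : G.Walk w w), c.IsCycle → 12 ≤ c.length)
    (h3 : ∀ x y, G.Adj x y → ∃ a b c, G.Adj x a ∧ G.Adj x b ∧ G.Adj x c ∧ a ≠ b ∧ a ≠ c ∧ b ≠ c)
    {y : V} {S : Finset V} (hS : S ⊆ nb G y) (hne : S.Nonempty) :
    62 * ((((nb G y).card : ℤ) - 1) + ∑ x ∈ S, (((nb G x).card : ℤ) - 1)) ≤
      ((S.card : ℤ) + 1) * (((Ni G).card : ℤ) - 2) := by
  classical
  obtain ⟨z0, hz0⟩ := hne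
  have hj : 1 ≤ S.card := card_pos.2 ⟨z0, hz0⟩
  have hle : S.card ≤ (nb G y).card := card_le_card hS
  have hd : 3 ≤ (nb G y).card := three_nb h3 (mem_nb.1 (hS hz0))
  set A : ℤ := ∑ x ∈ S, ((Ord.Bs G 1 x y).card : ℤ) with hAdef
  have hA : 2 * (S.card : ℤ) ≤ A := by
    have : ∑ x ∈ S, (2 : ℤ) ≤ A := by
      refine sum_le_sum fun x hx => ?_
      have b1 := Ord.card_Bs h12 h3 (mem_nb.1 (hS hx)).symm 1 (by omega)
      norm_num at b1
      exact_mod_cast b1
    simpa [mul_comm] using this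
  have hsum : ∑ x ∈ S, (((nb G x).card : ℤ) - 1) ≤ A := by
    refine sum_le_sum fun x hx => ?_
    have := Bs_one (mem_nb.1 (hS hx))
    have h2 : ((nb G x).card : ℤ) ≤ (Ord.Bs G 1 x y).card + 1 := by exact_mod_cast this
    linarith
  have hall : ∀ z ∈ S, (1 + (S.card : ℤ) + 15 * A + 31 * (((nb G y).card : ℤ) - S.card)) +
      16 * ((Ord.Bs G 1 z y).card : ℤ) ≤ (Ni G).card := by
    intro z hz
    have h := count h12 h3 hS hz
    have h' : ((1 + ∑ x ∈ S, (1 + 15 * (Ord.Bs G 1 x y).card) + 31 * ((nb G y).card - S.card) +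
      16 * (Ord.Bs G 1 z y).card : ℕ) : ℤ) ≤ ((Ni G).card : ℤ) := by exact_mod_cast h
    rw [Nat.cast_add, Nat.cast_add, Nat.cast_add, Nat.cast_mul, Nat.cast_mul, Nat.cast_sub hle,
      Nat.cast_sum] at h'
    simp only [Nat.cast_add, Nat.cast_mul, Nat.cast_one, Nat.cast_ofNat, sum_add_distrib,
      sum_const, nsmul_eq_mul, mul_one, ← mul_sum] at h'
    rw [← hAdef] at h'
    linarith
  have htot := sum_le_sum hall
  rw [sum_add_distrib, sum_const, sum_const, ← mul_sum, ← hAdef, nsmul_eq_mul, nsmul_eq_mul]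
    at htot
  have := arith (S.card : ℤ) ((nb G y).card : ℤ) A ((Ni G).card : ℤ) (by exact_mod_cast hj)
    (by exact_mod_cast hd) hA (by linarith)
  linarith

/-- sets in which every vertex has a neighbour -/
theorem sum_le (h12 : ∀ (w : V) (c : G.Walk w w), c.IsCycle → 12 ≤ c.length)
    (h3 : ∀ x y, G.Adj x y → ∃ a b c, G.Adj x a ∧ G.Adj x b ∧ G.Adj x c ∧ a ≠ b ∧ a ≠ c ∧ b ≠ c)
    {C : Finset V} (hC : ∀ x ∈ C, ∃ y ∈ C, G.Adj x y) :
    62 * ∑ x ∈ C, (((nb G x).card : ℤ) - 1) ≤ (C.card : ℤ) * (((Ni G).card : ℤ) - 2) := by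
  classical
  set N : ℤ := ((Ni G).card : ℤ) - 2 with hN
  set g : V → ℤ := fun x => N - 62 * (((nb G x).card : ℤ) - 1) with hg
  set B : Finset V := C.filter (fun x => g x < 0) with hB
  have hedge : ∀ x y, G.Adj x y → 0 ≤ g x + g y := by
    intro x y h
    have h1 := star h12 h3 (y := x) (S := {y}) (by
      intro v hv
      rw [mem_singleton.1 hv]
      exact mem_nb.2 h) ⟨y, mem_singleton_self y⟩
    rw [sum_singleton, card_singleton] at h1
    simp only [hg]
    push_cast at h1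
    linarith
  have hf : ∀ x, ∃ y, x ∈ C → y ∈ C ∧ G.Adj x y := by
    intro x
    by_cases hx : x ∈ C
    · obtain ⟨y, hy, h⟩ := hC x hx
      exact ⟨y, fun _ => ⟨hy, h⟩⟩
    · exact ⟨x, fun h => absurd h hx⟩
  choose f hf using hf
  have hmaps : ∀ x ∈ B, f x ∈ C \ B := by
    intro x hx
    obtain ⟨hx1, hx2⟩ := mem_filter.1 hx
    obtain ⟨h1, h2⟩ := hf x hx1
    refine mem_sdiff.2 ⟨h1, fun h4 => ?_⟩
    have h5 := (mem_filter.1 h4).2
    have h6 := hedge x (f x) h2
    linarith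
  have hmain : 0 ≤ ∑ x ∈ C, g x := by
    rw [← sum_sdiff (filter_subset (fun x => g x < 0) C), ← hB,
      ← sum_fiberwise_of_maps_to hmaps (fun x => g x), ← sum_add_distrib]
    refine sum_nonneg fun y hy => ?_
    obtain ⟨hy1, hy2⟩ := mem_sdiff.1 hy
    rcases (B.filter (fun x => f x = y)).eq_empty_or_nonempty with he | hne
    · rw [he, sum_empty, add_zero]
      by_contra hcon
      exact hy2 (mem_filter.2 ⟨hy1, not_le.1 hcon⟩)
    · have h1 := star h12 h3 (y := y) (S := B.filter (fun x => f x = y)) (by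
        intro x hx
        obtain ⟨hx1, hx2⟩ := mem_filter.1 hx
        have h2 := (hf x (mem_filter.1 hx1).1).2
        rw [hx2] at h2
        exact mem_nb.2 h2.symm) hne
      simp only [hg, sum_sub_distrib, sum_const, nsmul_eq_mul, ← mul_sum] at h1 ⊢
      linarith
  simp only [hg, sum_sub_distrib, sum_const, nsmul_eq_mul, ← mul_sum] at hmain ⊢
  linarith

end Run7.h315.CD
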