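import Pool.Agent.R129.Ball.Main
import Pool.Agent.Run7.h315.CD.Star

/-!
# Nowhere-zero 5-flows of graphs which are dominated by few small connected sets
-/

set_option autoImplicit false
set_option linter.unusedSectionVars false

namespace Run7.h315.CD

open Finset Pool.Agent.TH676.Z Pool.Agent.Y335.FL Pool.Agent.Y358.IN Pool.Agent.R129.Ball

section cls

variable {V E : Type} [Fintype V] [DecidableEq V] [Fintype E] [DecidableEq E]

/-- connected sets of vertices -/
inductive Cn (src dst : E → V) : Finset V → Prop
  | one (x : V) : Cn src dst {x}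
  | add {C : Finset V} {x y : V} : Cn src dst C → y ∈ C → Adj src dst y x →
      Cn src dst (insert x C)

theorem Cn.im {src dst : E → V} {u v : V} {C : Finset V} (h : Cn src dst C) :
    Cn (ctr u v ∘ src) (ctr u v ∘ dst) (C.image (ctr u v)) := by
  induction h with
  | one x => rw [image_singleton]; exact Cn.one _
  | @add C x y _ hy hadj ih =>
    rw [image_insert]
    by_cases h3 : ctr u v y = ctr u v x
    · rw [insert_eq_of_mem]
      · exact ih
      · rw [← h3]; exact mem_image_of_mem _ hy
    · exact Cn.add ih (mem_image_of_mem _ hy) (adj_ctr hadj h3)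

/-- `x` is in `C` or has a neighbour in `C` -/
def Dom (src dst : E → V) (C : Finset V) (x : V) : Prop := x ∈ C ∨ ∃ y ∈ C, Adj src dst y x

theorem Dom.im {src dst : E → V} {u v : V} {C : Finset V} {x : V} (h : Dom src dst C x) :
    Dom (ctr u v ∘ src) (ctr u v ∘ dst) (C.image (ctr u v)) (ctr u v x) := by
  rcases h with h | ⟨y, hy, h⟩
  · exact Or.inl (mem_image_of_mem _ h)
  · by_cases h3 : ctr u v y = ctr u v x
    · left
      rw [← h3]
      exact mem_image_of_mem _ hy
    · exact Or.inr ⟨_, mem_image_of_mem _ hy, adj_ctr h h3⟩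

open Classical in
/-- the total weight of the connected sets which dominate a vertex of degree at least three is at
least one -/
def ClD {ι : Type} [Fintype ι] (m : ι → ℕ) (w : ι → ℝ) (src dst : E → V) : Prop :=
  ∃ C : ι → Finset V, (∀ i, Cn src dst (C i) ∧ (C i).card ≤ m i) ∧
    ∀ x, 3 ≤ dg src dst x → 1 ≤ ∑ i, if Dom src dst (C i) x then w i else 0

theorem ccD {ι : Type} [Fintype ι] (m : ι → ℕ) (w : ι → ℝ) (hw : ∀ i, 0 ≤ w i) :
    CC (V := V) (E := E) (ClD m w) := by
  classical
  intro src dst e h hne
  obtain ⟨C, hC, hc⟩ := h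
  refine ⟨fun i => (C i).image (ctr (src e) (dst e)),
    fun i => ⟨(hC i).1.im, card_image_le.trans (hC i).2⟩, ?_⟩
  intro x hx
  have hxv : x ≠ dst e := by
    rintro rfl
    rw [Ord.dg_ctr_v src dst hne] at hx
    omega
  have key : ∀ y, 3 ≤ dg src dst y → ctr (src e) (dst e) y = x →
      1 ≤ ∑ i, if Dom (ctr (src e) (dst e) ∘ src) (ctr (src e) (dst e) ∘ dst)
        ((C i).image (ctr (src e) (dst e))) x then w i else 0 := by
    intro y hy hyx
    refine (hc y hy).trans (sum_le_sum fun i _ => ?_)
    by_cases h1 : Dom src dst (C i) y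
    · have h5 := h1.im (u := src e) (v := dst e)
      rw [hyx] at h5
      rw [if_pos h1, if_pos h5]
    · rw [if_neg h1]
      split_ifs
      · exact hw i
      · exact le_rfl
  by_cases hxu : x = src e
  · subst hxu
    have h2 := Ord.dg_ctr_u src dst e hne
    by_cases h4 : 3 ≤ dg src dst (src e)
    · exact key _ h4 (ctr_u _ _ hne)
    · exact key (dst e) (by omega) (ctr_v _ _)
  · exact key x (hx.trans (Ord.dg_ctr_other src dst hxu)) (ctr_of_ne hxv)

/-- a connected set with more than one vertex -/
theorem Cn.nbr {src dst : E → V} {C : Finset V} (h : Cn src dst C) :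
    (∃ x, C = {x}) ∨ ∀ x ∈ C, ∃ y ∈ C, Adj src dst x y := by
  induction h with
  | one x => exact Or.inl ⟨x, rfl⟩
  | @add C x y hC hy hadj ih =>
    right
    intro z hz
    rcases mem_insert.1 hz with h | h
    · rw [h]
      exact ⟨y, mem_insert_of_mem hy, GiAux.adj_symm hadj⟩
    · rcases ih with ⟨x0, h0⟩ | h1
      · rw [h0, mem_singleton] at h hy
        rw [h, ← hy]
        exact ⟨x, mem_insert_self _ _, hadj⟩
      · obtain ⟨t, ht, h2⟩ := h1 z h
        exact ⟨t, mem_insert_of_mem ht, h2⟩

open Classical in
/-- the number of the dominated vertices -/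
theorem Cn.count {src dst : E → V} {G : SimpleGraph V} (hG : ∀ a b, G.Adj a b ↔ Adj src dst a b)
    {C : Finset V} (h : Cn src dst C) :
    (univ.filter (fun x => Dom src dst C x)).card + C.card ≤ ∑ x ∈ C, (nb G x).card + 2 := by
  induction h with
  | one x =>
    rw [sum_singleton, card_singleton]
    have h1 : (univ.filter (fun z => Dom src dst {x} z)) ⊆ insert x (nb G x) := by
      intro z hz
      rcases (mem_filter.1 hz).2 with h | ⟨y, hy, h⟩
      · rw [mem_singleton.1 h]
        exact mem_insert_self _ _
      · rw [mem_singleton.1 hy] at h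
        exact mem_insert_of_mem (mem_nb.2 ((hG _ _).2 h))
    have h2 := (card_le_card h1).trans (card_insert_le _ _)
    omega
  | @add C x y hC hy hadj ih =>
    by_cases hx : x ∈ C
    · rw [insert_eq_of_mem hx]
      exact ih
    · rw [card_insert_of_notMem hx, sum_insert hx]
      have hyx : y ∈ nb G x := mem_nb.2 ((hG _ _).2 (GiAux.adj_symm hadj))
      have h1 : (univ.filter (fun z => Dom src dst (insert x C) z)) ⊆
          (univ.filter (fun z => Dom src dst C z)) ∪ (nb G x).erase y := by
        intro z hz
        rw [mem_union, mem_filter]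
        by_cases hz1 : Dom src dst C z
        · exact Or.inl ⟨mem_univ _, hz1⟩
        · right
          rcases (mem_filter.1 hz).2 with h | ⟨t, ht, h⟩
          · rcases mem_insert.1 h with h | h
            · exact absurd (Or.inr ⟨y, hy, by rw [h]; exact hadj⟩) hz1
            · exact absurd (Or.inl h) hz1
          · rcases mem_insert.1 ht with h' | h'
            · rw [h'] at h
              refine mem_erase.2 ⟨fun h4 => hz1 (Or.inl (by rw [h4]; exact hy)),
                mem_nb.2 ((hG _ _).2 h)⟩
            · exact absurd (Or.inr ⟨t, h', h⟩) hz1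
      have h2 := (card_le_card h1).trans (card_union_le _ _)
      rw [card_erase_of_mem hyx] at h2
      have h3 : 1 ≤ (nb G x).card := card_pos.2 ⟨y, hyx⟩
      omega

end cls

/-- **Main step.** -/
theorem flow_of_ClD (hc : St_contract) {ι : Type} [Fintype ι] (m : ι → ℕ) (w : ι → ℝ)
    (hw : ∀ i, 0 ≤ w i) (h62 : ∑ i, w i * (m i + 1) ≤ 62)
    {V E : Type} [Fintype V] [DecidableEq V] [Fintype E] [DecidableEq E] (src dst : E → V)
    (hcl : ClD m w src dst) (hbr : Br src dst ∅ ∅) : FlowOn src dst ∅ ∅ := by
  classical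
  by_contra hn
  obtain ⟨s, d, ⟨C, hC, hcov⟩, hM⟩ := exists_minC (ccD m w hw) src dst hcl hbr hn
  have h3 := threeC hc hM
  have hgi := girthC hc hM
  by_cases hl : ∀ e, s e = d e
  · exact hM.nf (flow_of_loops hl)
  push Not at hl
  obtain ⟨e, he⟩ := hl
  let G : SimpleGraph V :=
    { Adj := Adj s d
      symm := ⟨fun a b h => GiAux.adj_symm h⟩
      loopless := ⟨fun a h => h.1 rfl⟩ }
  have hG : ∀ a b, G.Adj a b ↔ Adj s d a b := fun a b => Iff.rfl
  have h12 : ∀ (w : V) (c : G.Walk w w), c.IsCycle → 12 ≤ c.length :=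
    fun w c hc => Ord.cycle_len hgi G hG c hc
  have hxy : G.Adj (s e) (d e) := ⟨he, e, Or.inl ⟨rfl, rfl⟩⟩
  -- the number of the vertices
  have hn126 : 126 ≤ (Ni G).card := by
    have h1 := moore V (Adj s d) (fun a b h => GiAux.adj_symm h) (fun a h => h.1 rfl) hgi h3
      ⟨s e, d e, hxy⟩
    refine h1.trans (card_le_card ?_)
    intro v hv
    rw [mem_filter] at hv
    unfold Ni
    exact mem_filter.2 ⟨mem_univ _, hv.2⟩
  have hnR : (126 : ℤ) ≤ (Ni G).card := by exact_mod_cast hn126
  -- the dominated vertices
  set B : ι → Finset V := fun i => (Ni G).filter (fun x => Dom s d (C i) x) with hB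
  have hball : ∀ i, 62 * ((B i).card : ℤ) ≤ ((m i : ℤ) + 1) * (((Ni G).card : ℤ) - 2) := by
    intro i
    have hle : (B i).card ≤ (univ.filter (fun x => Dom s d (C i) x)).card :=
      card_le_card fun x hx => mem_filter.2 ⟨mem_univ _, (mem_filter.1 hx).2⟩
    have hcnt := (hC i).1.count hG
    have hcard : ((C i).card : ℤ) ≤ m i := by exact_mod_cast (hC i).2
    have hmul : (((C i).card : ℤ) + 1) * (((Ni G).card : ℤ) - 2) ≤
        ((m i : ℤ) + 1) * (((Ni G).card : ℤ) - 2) :=
      mul_le_mul_of_nonneg_right (by linarith) (by linarith)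
    refine le_trans ?_ hmul
    rcases (hC i).1.nbr with ⟨x, hx⟩ | h
    · by_cases hi : ∃ y, G.Adj x y
      · obtain ⟨y, hy⟩ := hi
        have h1 := ball h12 h3 hy (r := 1) (by omega)
        have h2 : (nb G x).card + 1 ≤ ((range 2).biUnion fun j => Lv G j x).card := by
          have h4 : (insert x (nb G x)) ⊆ (range 2).biUnion fun j => Lv G j x := by
            intro z hz
            rcases mem_insert.1 hz with h | h
            · rw [h]
              refine mem_biUnion.2 ⟨0, by simp, ?_⟩
              rw [Lv_zero]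
              exact mem_singleton_self _
            · have h5 := mem_nb.1 h
              exact mem_biUnion.2 ⟨1, by simp, mem_Lv.2 ⟨SimpleGraph.Walk.cons h5
                SimpleGraph.Walk.nil, Ord.edge_path h5, by simp⟩⟩
          have h6 := card_le_card h4
          rw [card_insert_of_notMem (fun h => (mem_nb.1 h).ne rfl)] at h6
          exact h6
        rw [hx, sum_singleton, card_singleton] at hcnt
        rw [hx, card_singleton]
        have h7 : (B i).card ≤ (nb G x).card + 1 := by
          rw [hx] at hle
          omega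
        norm_num at h1
        push_cast
        have h8 : 31 * ((B i).card : ℤ) + 33 ≤ 31 + (Ni G).card := by
          have : 31 * (B i).card + 33 ≤ 31 + (Ni G).card := by omega
          exact_mod_cast this
        linarith
      · have h1 : B i = ∅ := by
          rw [eq_empty_iff_forall_notMem]
          intro z hz
          obtain ⟨hz1, hz2⟩ := mem_filter.1 hz
          unfold Ni at hz1
          obtain ⟨t, ht⟩ := (mem_filter.1 hz1).2
          rw [hx] at hz2
          rcases hz2 with h | ⟨y, hy, h⟩
          · rw [mem_singleton.1 h] at ht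
            exact hi ⟨t, ht⟩
          · rw [mem_singleton.1 hy] at h
            exact hi ⟨z, h⟩
        rw [h1, card_empty, Nat.cast_zero, mul_zero]
        have h2 : (0 : ℤ) ≤ ((C i).card : ℤ) := Int.natCast_nonneg _
        exact mul_nonneg (by linarith) (by linarith)
    · have h1 := sum_le h12 h3 (C := C i) (fun x hx => by
        obtain ⟨y, hy, h'⟩ := h x hx
        exact ⟨y, hy, h'⟩)
      rw [sum_sub_distrib, sum_const, nsmul_eq_mul, mul_one] at h1
      have h2 : ((B i).card : ℤ) + (C i).card ≤ ∑ x ∈ C i, ((nb G x).card : ℤ) + 2 := by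
        have h4 : (B i).card + (C i).card ≤ ∑ x ∈ C i, (nb G x).card + 2 := by omega
        have h5 : ((∑ x ∈ C i, (nb G x).card : ℕ) : ℤ) = ∑ x ∈ C i, ((nb G x).card : ℤ) := by
          push_cast
          rfl
        rw [← h5]
        exact_mod_cast h4
      linarith
  have hballR : ∀ i, 62 * ((B i).card : ℝ) ≤ ((m i : ℝ) + 1) * (((Ni G).card : ℝ) - 2) := by
    intro i
    have := hball i
    exact_mod_cast this
  -- the number of the vertices is at most the weighted number of the dominated vertices
  have hsum : ((Ni G).card : ℝ) ≤ ∑ i, w i * (B i).card := by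
    calc ((Ni G).card : ℝ) = ∑ x ∈ Ni G, (1 : ℝ) := by simp
      _ ≤ ∑ x ∈ Ni G, ∑ i, (if Dom s d (C i) x then w i else 0) := by
          refine sum_le_sum fun x hx => ?_
          unfold Ni at hx
          obtain ⟨y, hy⟩ := (mem_filter.1 hx).2
          exact hcov x (Ord.three_dg h3 hy)
      _ = ∑ i, ∑ x ∈ Ni G, (if Dom s d (C i) x then w i else 0) := sum_comm
      _ = ∑ i, w i * (B i).card := by
          refine sum_congr rfl fun i _ => ?_
          rw [← sum_filter, sum_const, nsmul_eq_mul, mul_comm]
  have hnR' : (126 : ℝ) ≤ (Ni G).card := by exact_mod_cast hn126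
  have hS : 62 * ((Ni G).card : ℝ) ≤ (∑ i, w i * (m i + 1)) * ((Ni G).card - 2) := by
    calc 62 * ((Ni G).card : ℝ) ≤ 62 * ∑ i, w i * (B i).card := by linarith
      _ = ∑ i, w i * (62 * ((B i).card : ℝ)) := by
          rw [mul_sum]
          exact sum_congr rfl fun i _ => by ring
      _ ≤ ∑ i, w i * (((m i : ℝ) + 1) * (((Ni G).card : ℝ) - 2)) :=
          sum_le_sum fun i _ => mul_le_mul_of_nonneg_left (hballR i) (hw i)
      _ = (∑ i, w i * (m i + 1)) * ((Ni G).card - 2) := by
          rw [sum_mul]
          exact sum_congr rfl fun i _ => by ring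
  have h9 : (∑ i, w i * ((m i : ℝ) + 1)) * (((Ni G).card : ℝ) - 2) ≤
      62 * (((Ni G).card : ℝ) - 2) := mul_le_mul_of_nonneg_right h62 (by linarith)
  linarith

end Run7.h315.CD
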